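import Mathlib
import Pool.Agent.H84.KProd2

set_option autoImplicit false

namespace Pool.Agent.Results.MP_958dc4_gt.NotHomeo

/-- There are an adequate, homeomorphism-closed class `K` of T0 spaces containing the sober spaces,
a family of T0 spaces `X i` with `K`-reflections `R i`, and a `K`-reflection `Z` of the product of
the `X i`, such that `Z` is not homeomorphic to the product of the `R i`. -/
theorem result :
    ∃ (K : (X : Type) → [TopologicalSpace X] → Prop),
      (∀ (X : Type) [TopologicalSpace X], K X → T0Space X) ∧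
      (∀ (X : Type) [TopologicalSpace X], T0Space X → QuasiSober X → K X) ∧
      (∀ (X Y : Type) [TopologicalSpace X] [TopologicalSpace Y], (X ≃ₜ Y) → K X → K Y) ∧
      (∀ (X : Type) [TopologicalSpace X], T0Space X →
        @K {A : Set X // IsClosed A ∧ ∀ (Y : Type) [TopologicalSpace Y], K Y →
              ∀ f : X → Y, Continuous f → ∃! y : Y, closure (f '' A) = closure {y}}
          (TopologicalSpace.generateFrom
            {S | ∃ U : Set X, IsOpen U ∧ S = {A | (A.1 ∩ U).Nonempty}})) ∧
      ∃ (I : Type) (X R : I → Type) (_ : ∀ i, TopologicalSpace (X i))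
        (_ : ∀ i, TopologicalSpace (R i)) (η : ∀ i, X i → R i)
        (Z : Type) (_ : TopologicalSpace Z) (μ : (∀ i, X i) → Z),
        (∀ i, T0Space (X i)) ∧
        (∀ i, K (R i) ∧ Continuous (η i) ∧
          ∀ (Y : Type) [TopologicalSpace Y], K Y → ∀ g : X i → Y, Continuous g →
            ∃! h : R i → Y, Continuous h ∧ h ∘ η i = g) ∧
        (K Z ∧ Continuous μ ∧
          ∀ (Y : Type) [TopologicalSpace Y], K Y → ∀ g : (∀ i, X i) → Y, Continuous g →
            ∃! h : Z → Y, Continuous h ∧ h ∘ μ = g) ∧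
        IsEmpty (Z ≃ₜ ∀ i, R i) :=
  ⟨H84.KProd.K, fun _ _ h => h.1, fun Y _ _ _ => H84.KProd.K_sober Y,
    fun Y Z _ _ e h => H84.KProd.K_homeo Y Z e h,
    fun W _ _ => H84.KProd.K_KD W,
    ℕ, H84.KProd.X, H84.KProd.R, inferInstance, inferInstance, H84.KProd.eta,
    H84.KProd.KD _, inferInstance, H84.KProd.muKD _, fun _ => inferInstance,
    fun i => ⟨H84.KProd.K_R i, H84.KProd.continuous_eta i, H84.KProd.eta_univ i⟩,
    ⟨H84.KProd.K_KD _, H84.KProd.continuous_muKD _, H84.KProd.muKD_univ _⟩,
    H84.KProd.not_homeo H84.KProd.R H84.KProd.eta H84.KProd.continuous_eta H84.KProd.K_R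
      H84.KProd.eta_univ _ _ (H84.KProd.muKD_univ _)⟩

end Pool.Agent.Results.MP_958dc4_gt.NotHomeo
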